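import Pool.Agent.W902.C6.Stm2
import Pool.Agent.W589.C6.Cnt

/-! Project C6 (owner helper902), part CONVA. -/

set_option autoImplicit false

namespace Pool.Agent.W418.C6.Conva

open Pool.Agent.W902.C6 Finset

theorem mad {n : ℕ} {r : ℕ × ℕ} : r ∈ HasAntidiagonal.antidiagonal n ↔ r.1 + r.2 = n :=
  HasAntidiagonal.mem_antidiagonal

theorem exF (X : Set (List Lt)) (hX : ∀ l ∈ X, NZ l) (i : ℕ) :
    ∃ F : Finset (List Lt), (∀ l, l ∈ F ↔ l ∈ X ∧ weight l = i) ∧ F.card = cntX X i := by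
  classical
  obtain ⟨W, hW, -, -⟩ := Pool.Agent.W589.C6.Cnt.main i
  have h : ∀ l, l ∈ W.filter (fun l => l ∈ X) ↔ l ∈ X ∧ weight l = i := by
    intro l
    rw [mem_filter, hW]
    constructor
    · rintro ⟨⟨-, h2⟩, h3⟩
      exact ⟨h3, h2⟩
    · rintro ⟨h1, h2⟩
      exact ⟨⟨hX l h1, h2⟩, h1⟩
  refine ⟨W.filter (fun l => l ∈ X), h, ?_⟩
  unfold cntX
  rw [← Set.ncard_coe_finset]
  congr 1
  ext l
  rw [mem_coe, h]
  rfl

theorem main : S_conva := by
  classical
  intro X Y Z hX hY hZ m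
  choose FX hX1 hX2 using exF X hX
  choose FY hY1 hY2 using exF Y hY
  choose FZ hZ1 hZ2 using exF Z hZ
  set P : ℕ → Finset (List Lt × List Lt) := fun n =>
    (HasAntidiagonal.antidiagonal n).biUnion fun r => FY r.1 ×ˢ FZ r.2 with hP
  have hPmem : ∀ n z, z ∈ P n ↔ z.1 ∈ Y ∧ z.2 ∈ Z ∧ weight z.1 + weight z.2 = n := by
    intro n z
    simp only [hP, mem_biUnion, mem_product, hY1, hZ1, mad]
    constructor
    · rintro ⟨r, hr, ⟨h1, h2⟩, h3, h4⟩
      exact ⟨h1, h3, by omega⟩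
    · rintro ⟨h1, h2, h3⟩
      exact ⟨(weight z.1, weight z.2), h3, ⟨h1, rfl⟩, h2, rfl⟩
  have hPcard : ∀ n, (P n).card = ∑ r ∈ HasAntidiagonal.antidiagonal n,
      cntX Y r.1 * cntX Z r.2 := by
    intro n
    rw [hP]
    simp only
    rw [card_biUnion]
    · refine sum_congr rfl fun r _ => ?_
      rw [card_product, hY2, hZ2]
    · intro r _ r' _ hrr
      rw [Function.onFun, disjoint_left]
      intro z hz hz'
      simp only [mem_product, hY1, hZ1] at hz hz'
      apply hrr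
      apply Prod.ext
      · rw [← hz.1.2, ← hz'.1.2]
      · rw [← hz.2.2, ← hz'.2.2]
  set T : Finset (List Lt × List Lt × List Lt) :=
    (HasAntidiagonal.antidiagonal m).biUnion fun r => FX r.1 ×ˢ P r.2 with hT
  have hTmem : tri X Y Z m = (T : Set (List Lt × List Lt × List Lt)) := by
    ext z
    simp only [tri, Set.mem_ofPred_eq, mem_coe, hT, mem_biUnion, mem_product, hX1, hPmem, mad]
    constructor
    · rintro ⟨h1, h2, h3, h4⟩
      exact ⟨(weight z.1, weight z.2.1 + weight z.2.2), by omega, ⟨h1, rfl⟩, h2, h3, rfl⟩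
    · rintro ⟨r, hr, ⟨h1, h2⟩, h3, h4, h5⟩
      exact ⟨h1, h3, h4, by omega⟩
  rw [hTmem]
  refine ⟨finite_toSet _, ?_⟩
  rw [Set.ncard_coe_finset, hT, card_biUnion]
  · refine sum_congr rfl fun r _ => ?_
    rw [card_product, hX2, hPcard]
  · intro r _ r' _ hrr
    rw [Function.onFun, disjoint_left]
    intro z hz hz'
    simp only [mem_product, hX1, hPmem] at hz hz'
    apply hrr
    apply Prod.ext
    · rw [← hz.1.2, ← hz'.1.2]
    · rw [← hz.2.2.2, ← hz'.2.2.2]

end Pool.Agent.W418.C6.Conva
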